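import Pool.Agent.Q38.BP.Main

set_option autoImplicit false

/-!
# MP_bdabc0_co: the constants in the sufficient condition (S) for equal-cardinality ball
partitioning are not always optimal

For the weights `(5, 3, 3, 2, 2, 0)` condition (S) has the constants `b = (3, 1, 1, 2, 1, 0)`.  The
relaxation which replaces `b_1 = 3` by `2` is strict, but for every `d ≥ 4` every non-increasing
integer tuple of capacities satisfying the relaxed inequalities gives a feasible problem.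
-/

namespace Pool.Agent.Results.MP_bdabc0_co.NotOptimal

open Pool.Agent.Q38.BP

/-- `λ'_c`, the number of parts of `lam` which are at least `c` -/
def conj {r : ℕ} (lam : Fin r → ℕ) (c : ℕ) : ℕ := (Finset.univ.filter fun i => c ≤ lam i).card

/-- the multiplicity of `h` in the conjugate tuple `(λ'_1, λ'_2, …, λ'_{λ_1})` -/
def mult {r : ℕ} (lam : Fin r → ℕ) (h : ℕ) : ℕ :=
  ((Finset.Icc 1 (Finset.univ.sup lam)).filter fun c => conj lam c = h).card

/-- the list `h_1 > ⋯ > h_k` of the numbers strictly between `0` and `r` occurring in the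
conjugate tuple -/
def heights {r : ℕ} (lam : Fin r → ℕ) : List ℕ :=
  ((List.range r).filter fun h => decide (0 < h ∧ 0 < mult lam h)).reverse

/-- `∑ₜ (h_{t-1} - h_t) (a_t - 1) + (h_k - 1) (a_k - 1)` for the list `h_1, …, h_k`, where
`a_t = a h_t`; it is `0` for the empty list -/
def bSum (a : ℕ → ℕ) : ℕ → List ℕ → ℕ
  | _, [] => 0
  | h₀, [h] => (h₀ - h) * (a h - 1) + (h - 1) * (a h - 1)
  | h₀, h :: h' :: l => (h₀ - h) * (a h - 1) + bSum a h (h' :: l)

/-- the constant `b(λ)` -/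
def b {r : ℕ} (lam : Fin r → ℕ) : ℕ := bSum (mult lam) r (heights lam)

/-- the tuple `(w_i, …, w_n)` -/
def tailTuple {n : ℕ} (w : Fin n → ℕ) (i : Fin n) : Fin (n - i) → ℕ :=
  fun j => w ⟨i + j, by omega⟩

/-- the inequalities `C_i + ⋯ + C_n ≥ d (w_i + ⋯ + w_n) + c_i` for all `i` -/
def Ineq {n : ℕ} (w : Fin n → ℕ) (c : Fin n → ℤ) (d : ℕ) (C : Fin n → ℤ) : Prop :=
  ∀ i, (d : ℤ) * ∑ j ∈ Finset.Ici i, (w j : ℤ) + c i ≤ ∑ j ∈ Finset.Ici i, C j

/-- condition (S) -/
def S {n : ℕ} (w : Fin n → ℕ) (d : ℕ) (C : Fin n → ℤ) : Prop :=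
  Ineq w (fun i => (b (tailTuple w i) : ℤ)) d C

/-- `BP(d, C; w)` is feasible: the multiset with `d` copies of each `w i` is the sum of multisets
`B i` of size `d` with sums at most `C i` -/
def Feasible {n : ℕ} (w : Fin n → ℕ) (d : ℕ) (C : Fin n → ℤ) : Prop :=
  ∃ B : Fin n → Multiset ℕ, ∑ i, B i = ∑ i, Multiset.replicate d (w i) ∧
    (∀ i, (B i).card = d) ∧ ∀ i, ((B i).sum : ℤ) ≤ C i

/-- more non-increasing capacities satisfy the relaxed inequalities than (S) -/
def Strict {n : ℕ} (w : Fin n → ℕ) (c : Fin n → ℤ) (d : ℕ) : Prop :=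
  ∃ C : Fin n → ℤ, Antitone C ∧ Ineq w c d C ∧ ¬ S w d C

/-- the assertion of Q1 -/
def Question : Prop :=
  ∀ (n : ℕ) (w : Fin n → ℕ), 1 ≤ n → Antitone w → ∀ c : Fin n → ℤ,
    (∀ i, c i ≤ (b (tailTuple w i) : ℤ)) → ∃ D : ℕ, ∀ d : ℕ, D ≤ d → Strict w c d →
      ∃ C : Fin n → ℤ, Antitone C ∧ Ineq w c d C ∧ ¬ Feasible w d C

/-- the weights `5, 3, 3, 2, 2, 0` -/
def w₀ : Fin 6 → ℕ := ![5, 3, 3, 2, 2, 0]

/-- the relaxed constants -/
def c₀ : Fin 6 → ℤ := ![2, 1, 1, 2, 1, 0]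

theorem b_values : (b (tailTuple w₀ 0), b (tailTuple w₀ 1), b (tailTuple w₀ 2),
    b (tailTuple w₀ 3), b (tailTuple w₀ 4), b (tailTuple w₀ 5)) = (3, 1, 1, 2, 1, 0) := by
  decide +kernel

theorem feasible_of_good {d : ℕ} {C : Fin 6 → ℤ} (h : Good d C) : Feasible w₀ d C := by
  obtain ⟨x, y, z, u, h1, h2, h3, h4, h5, h6⟩ := h
  refine ⟨fun i => Multiset.replicate (x i) 5 + Multiset.replicate (y i) 3 +
    Multiset.replicate (z i) 2 + Multiset.replicate (u i) 0, ?_, ?_, ?_⟩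
  · have key : ∀ (f : Fin 6 → ℕ) (a : ℕ), ∑ i, Multiset.replicate (f i) a =
        Multiset.replicate (∑ i, f i) a := by
      intro f a
      simp only [← Multiset.nsmul_singleton, Finset.sum_nsmul_assoc]
    rw [Finset.sum_add_distrib, Finset.sum_add_distrib, Finset.sum_add_distrib, key, key, key, key,
      h2, h3, h4, h5, Fin.sum_univ_six]
    simp only [w₀, two_mul, Multiset.replicate_add]
    simp only [Matrix.cons_val]
    simp only [add_assoc]
  · intro i
    have := h1 i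
    simp only [Multiset.card_add, Multiset.card_replicate]
    exact this
  · intro i
    have := h6 i
    simp only [Multiset.sum_add, Multiset.sum_replicate, smul_eq_mul]
    push_cast
    linarith

/-- **The constants of (S) are not optimal.** The assertion of Q1 is false; for the weights
`5, 3, 3, 2, 2, 0` and every `d ≥ 4` the relaxation with the constants `2, 1, 1, 2, 1, 0` (those of
(S) are `3, 1, 1, 2, 1, 0`) is strict, and all problems satisfying it are feasible. -/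
theorem result : ¬ Question ∧
    (Antitone w₀ ∧ (∀ i, c₀ i ≤ (b (tailTuple w₀ i) : ℤ)) ∧ ∀ d : ℕ, 4 ≤ d →
      Strict w₀ c₀ d ∧ ∀ C : Fin 6 → ℤ, Antitone C → Ineq w₀ c₀ d C → Feasible w₀ d C) := by
  have hw : Antitone w₀ := by
    unfold w₀
    decide
  have hb := b_values
  simp only [Prod.mk.injEq] at hb
  obtain ⟨b0, b1, b2, b3, b4, b5⟩ := hb
  have hc : ∀ i, c₀ i ≤ (b (tailTuple w₀ i) : ℤ) := by
    intro i
    match i with
    | 0 => rw [b0]; decide
    | 1 => rw [b1]; decide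
    | 2 => rw [b2]; decide
    | 3 => rw [b3]; decide
    | 4 => rw [b4]; decide
    | 5 => rw [b5]; decide
  have i0 : Finset.Ici (0 : Fin 6) = {0, 1, 2, 3, 4, 5} := by decide
  have i1 : Finset.Ici (1 : Fin 6) = {1, 2, 3, 4, 5} := by decide
  have i2 : Finset.Ici (2 : Fin 6) = {2, 3, 4, 5} := by decide
  have i3 : Finset.Ici (3 : Fin 6) = {3, 4, 5} := by decide
  have i4 : Finset.Ici (4 : Fin 6) = {4, 5} := by decide
  have i5 : Finset.Ici (5 : Fin 6) = {5} := by decide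
  have s0 : ∀ f : Fin 6 → ℤ, ∑ j ∈ Finset.Ici (0 : Fin 6), f j =
      f 0 + f 1 + f 2 + f 3 + f 4 + f 5 := by
    intro f
    rw [i0, Finset.sum_insert (by decide), Finset.sum_insert (by decide),
      Finset.sum_insert (by decide), Finset.sum_insert (by decide), Finset.sum_pair (by decide)]
    ring
  have s1 : ∀ f : Fin 6 → ℤ, ∑ j ∈ Finset.Ici (1 : Fin 6), f j = f 1 + f 2 + f 3 + f 4 + f 5 := by
    intro f
    rw [i1, Finset.sum_insert (by decide), Finset.sum_insert (by decide),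
      Finset.sum_insert (by decide), Finset.sum_pair (by decide)]
    ring
  have s2 : ∀ f : Fin 6 → ℤ, ∑ j ∈ Finset.Ici (2 : Fin 6), f j = f 2 + f 3 + f 4 + f 5 := by
    intro f
    rw [i2, Finset.sum_insert (by decide), Finset.sum_insert (by decide),
      Finset.sum_pair (by decide)]
    ring
  have s3 : ∀ f : Fin 6 → ℤ, ∑ j ∈ Finset.Ici (3 : Fin 6), f j = f 3 + f 4 + f 5 := by
    intro f
    rw [i3, Finset.sum_insert (by decide), Finset.sum_pair (by decide)]
    ring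
  have s4 : ∀ f : Fin 6 → ℤ, ∑ j ∈ Finset.Ici (4 : Fin 6), f j = f 4 + f 5 := by
    intro f
    rw [i4, Finset.sum_pair (by decide)]
  have s5 : ∀ f : Fin 6 → ℤ, ∑ j ∈ Finset.Ici (5 : Fin 6), f j = f 5 := by
    intro f
    rw [i5, Finset.sum_singleton]
  have w0 : ∑ j ∈ Finset.Ici (0 : Fin 6), (w₀ j : ℤ) = 15 := by
    rw [s0]
    rfl
  have w1 : ∑ j ∈ Finset.Ici (1 : Fin 6), (w₀ j : ℤ) = 10 := by
    rw [s1]
    rfl
  have w2 : ∑ j ∈ Finset.Ici (2 : Fin 6), (w₀ j : ℤ) = 7 := by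
    rw [s2]
    rfl
  have w3 : ∑ j ∈ Finset.Ici (3 : Fin 6), (w₀ j : ℤ) = 4 := by
    rw [s3]
    rfl
  have w4 : ∑ j ∈ Finset.Ici (4 : Fin 6), (w₀ j : ℤ) = 2 := by
    rw [s4]
    rfl
  have w5 : ∑ j ∈ Finset.Ici (5 : Fin 6), (w₀ j : ℤ) = 0 := by
    rw [s5]
    rfl
  have hineq : ∀ (d : ℕ) (C : Fin 6 → ℤ), Ineq w₀ c₀ d C ↔
      ((d : ℤ) * 15 + 2 ≤ C 0 + C 1 + C 2 + C 3 + C 4 + C 5 ∧
        (d : ℤ) * 10 + 1 ≤ C 1 + C 2 + C 3 + C 4 + C 5 ∧
        (d : ℤ) * 7 + 1 ≤ C 2 + C 3 + C 4 + C 5 ∧ (d : ℤ) * 4 + 2 ≤ C 3 + C 4 + C 5 ∧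
        (d : ℤ) * 2 + 1 ≤ C 4 + C 5 ∧ 0 ≤ C 5) := by
    intro d C
    constructor
    · intro h
      refine ⟨?_, ?_, ?_, ?_, ?_, ?_⟩
      · have := h 0
        rwa [w0, s0] at this
      · have := h 1
        rwa [w1, s1] at this
      · have := h 2
        rwa [w2, s2] at this
      · have := h 3
        rwa [w3, s3] at this
      · have := h 4
        rwa [w4, s4] at this
      · have := h 5
        rw [w5, s5] at this
        have h0 : c₀ 5 = 0 := rfl
        rw [h0] at this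
        omega
    · rintro ⟨h0, h1, h2, h3, h4, h5⟩ i
      match i with
      | 0 =>
        rw [w0, s0]
        exact h0
      | 1 =>
        rw [w1, s1]
        exact h1
      | 2 =>
        rw [w2, s2]
        exact h2
      | 3 =>
        rw [w3, s3]
        exact h3
      | 4 =>
        rw [w4, s4]
        exact h4
      | 5 =>
        rw [w5, s5]
        have h0 : c₀ 5 = 0 := rfl
        rw [h0]
        omega
  have main : ∀ d : ℕ, 4 ≤ d →
      Strict w₀ c₀ d ∧ ∀ C : Fin 6 → ℤ, Antitone C → Ineq w₀ c₀ d C → Feasible w₀ d C := by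
    intro d hd
    refine ⟨?_, ?_⟩
    · refine ⟨![5 * (d : ℤ), 3 * d, 3 * d, 2 * d + 1, 2 * d, 1], ?_, ?_, ?_⟩
      · rw [Fin.antitone_iff_succ_le]
        intro i
        fin_cases i <;> simp <;> omega
      · rw [hineq]
        simp only [Matrix.cons_val]
        refine ⟨?_, ?_, ?_, ?_, ?_, ?_⟩ <;> omega
      · intro h
        have h0 := h 0
        simp only [b0] at h0
        rw [w0, s0] at h0
        simp only [Matrix.cons_val] at h0
        push_cast at h0
        omega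
    · intro C hC h
      rw [hineq] at h
      obtain ⟨h6, h5, h4, h3, h2, h1⟩ := h
      exact feasible_of_good (good_of_sorted hd hC h1 h2 h3 h4 h5 h6)
  refine ⟨?_, hw, hc, main⟩
  intro hQ
  obtain ⟨D, hD⟩ := hQ 6 w₀ (by norm_num) hw c₀ hc
  obtain ⟨h1, h2⟩ := main (max D 4) (le_max_right _ _)
  obtain ⟨C, hC, hI, hF⟩ := hD (max D 4) (le_max_left _ _) h1
  exact hF (h2 C hC hI)

end Pool.Agent.Results.MP_bdabc0_co.NotOptimal
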